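import Pool.Agent.Helper40.TV.St2

/-!
Statements of the pieces, part 3: consequences for bounded polynomials.
-/

set_option autoImplicit false

namespace Pool.Agent.Helper40.TV

open Polynomial Set Real
open Pool.Agent.Helper40.AS (Bdd)

noncomputable section

/-! ### general facts on bounded polynomials near `1` -/

/-- Markov and Taylor -/
def Ty : Prop := ∀ (n : ℕ) (P : ℝ[X]), 1 ≤ n → P.natDegree ≤ n → Bdd P →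
  (∀ x ∈ Icc (-1 : ℝ) 1, |P.derivative.eval x| ≤ 2 * (n : ℝ) ^ 2) ∧
  (∀ x ∈ Icc (-1 : ℝ) 1, |P.derivative.derivative.eval x| ≤ 4 * (n : ℝ) ^ 4) ∧
  (∀ x ∈ Icc (-1 : ℝ) 1, ∀ y ∈ Icc (-1 : ℝ) 1, |P.derivative.derivative.eval y -
    P.derivative.derivative.eval x| ≤ 8 * (n : ℝ) ^ 6 * |y - x|) ∧
  (∀ x ∈ Icc (-1 : ℝ) 1, ∀ y ∈ Icc (-1 : ℝ) 1, |P.derivative.eval y - P.derivative.eval x -
    P.derivative.derivative.eval x * (y - x)| ≤ 4 * (n : ℝ) ^ 6 * (y - x) ^ 2) ∧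
  ∀ x ∈ Icc (-1 : ℝ) 1, ∀ y ∈ Icc (-1 : ℝ) 1, |P.eval y - P.eval x - P.derivative.eval x * (y - x)
    - P.derivative.derivative.eval x * (y - x) ^ 2 / 2| ≤ 2 * (n : ℝ) ^ 6 * |y - x| ^ 3

/-- small derivative where the polynomial is nearly `1` in absolute value -/
def Nd : Prop := ∀ (n : ℕ) (P : ℝ[X]) (x η : ℝ), 1 ≤ n → P.natDegree ≤ n → Bdd P → 0 < η →
  -1 ≤ x - √η / (n : ℝ) ^ 2 → x + √η / (n : ℝ) ^ 2 ≤ 1 → 1 - η ≤ |P.eval x| →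
  |P.derivative.eval x| ≤ 3 * √η * (n : ℝ) ^ 2

/-- polynomials with prescribed derivatives at two points -/
def Bp : Prop := ∀ K δ : ℝ, 0 < K → 0 < δ → ∃ M : ℝ, 0 < M ∧ ∃ n0 : ℕ, ∀ n ≥ n0,
  ∀ u v : ℝ, u ∈ Icc (-1 : ℝ) 1 → v ∈ Icc (-1 : ℝ) 1 → (n : ℝ) ^ 2 * (1 - u) ≤ K →
  (n : ℝ) ^ 2 * (1 - v) ≤ K → δ ≤ (n : ℝ) ^ 2 * |u - v| → ∀ d e : ℝ, ∃ q : ℝ[X],
  q.natDegree ≤ n ∧ (∀ x ∈ Icc (-1 : ℝ) 1, |q.eval x| ≤ M * (|d| + |e|)) ∧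
  q.derivative.eval u = d * (n : ℝ) ^ 2 ∧ q.derivative.eval v = e * (n : ℝ) ^ 2

/-- making two points critical -/
def B2 : Prop := ∀ K δ : ℝ, 0 < K → 0 < δ → ∃ M : ℝ, 0 < M ∧ ∃ n0 : ℕ, ∀ n ≥ n0,
  ∀ (u v e : ℝ) (P : ℝ[X]), u ∈ Icc (-1 : ℝ) 1 → v ∈ Icc (-1 : ℝ) 1 → (n : ℝ) ^ 2 * (1 - u) ≤ K →
  (n : ℝ) ^ 2 * (1 - v) ≤ K → δ ≤ (n : ℝ) ^ 2 * |u - v| → P.natDegree ≤ n → Bdd P → 0 ≤ e →
  |P.derivative.eval u| ≤ e * (n : ℝ) ^ 2 → |P.derivative.eval v| ≤ e * (n : ℝ) ^ 2 →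
  ∃ Q : ℝ[X], Q.natDegree ≤ n ∧ Bdd Q ∧ Q.derivative.eval u = 0 ∧ Q.derivative.eval v = 0 ∧
  ∀ x ∈ Icc (-1 : ℝ) 1, |Q.eval x - P.eval x| ≤ M * e ∧
    |Q.derivative.eval x - P.derivative.eval x| ≤ M * e * (n : ℝ) ^ 2 ∧
    |Q.derivative.derivative.eval x - P.derivative.derivative.eval x| ≤ M * e * (n : ℝ) ^ 4

/-- making one point critical -/
def B1 : Prop := ∀ K : ℝ, 0 < K → ∃ M : ℝ, 0 < M ∧ ∃ n0 : ℕ, ∀ n ≥ n0,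
  ∀ (u e : ℝ) (P : ℝ[X]), u ∈ Icc (-1 : ℝ) 1 → (n : ℝ) ^ 2 * (1 - u) ≤ K →
  P.natDegree ≤ n → Bdd P → 0 ≤ e → |P.derivative.eval u| ≤ e * (n : ℝ) ^ 2 →
  ∃ Q : ℝ[X], Q.natDegree ≤ n ∧ Bdd Q ∧ Q.derivative.eval u = 0 ∧
  ∀ x ∈ Icc (-1 : ℝ) 1, |Q.eval x - P.eval x| ≤ M * e ∧
    |Q.derivative.eval x - P.derivative.eval x| ≤ M * e * (n : ℝ) ^ 2 ∧
    |Q.derivative.derivative.eval x - P.derivative.derivative.eval x| ≤ M * e * (n : ℝ) ^ 4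

/-- chains of separated critical points -/
def Ch : Prop := ∀ (K c0 : ℝ) (ε : ℕ → ℝ), 0 < K → 0 < c0 → (∀ j, 0 < ε j) → ∃ J n0 : ℕ,
  ∀ n ≥ n0, ∀ (a b t : ℝ) (P : ℝ[X]), -1 ≤ a → a < b → b ≤ 1 → (n : ℝ) ^ 2 * (1 - a) ≤ K →
  P.natDegree ≤ n → Bdd P → c0 ≤ Vp P a b → t ∈ Icc a b → P.derivative.eval t = 0 →
  ∃ j ≤ J, ∃ (m : ℕ) (x : ℕ → ℝ), (∀ i ≤ m, x i ∈ Icc a b ∧ P.derivative.eval (x i) = 0) ∧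
    (∀ i < m, 1 / ((j : ℝ) + 1) ≤ (n : ℝ) ^ 2 * (x i - x (i + 1))) ∧ (∃ i ≤ m, x i = t) ∧
    Vp P a b ≤ |P.eval b - P.eval (x 0)| +
      ∑ i ∈ Finset.range m, |P.eval (x (i + 1)) - P.eval (x i)| +
      |P.eval a - P.eval (x m)| + ε j

/-- the chain of all critical points of a non-degenerate polynomial -/
def Cn : Prop := ∀ h c : ℝ, 0 < h → 0 < c → ∃ δ : ℝ, 0 < δ ∧
  ∀ (n : ℕ) (a b t : ℝ) (P : ℝ[X]), 1 ≤ n → -1 ≤ a → a < b → b ≤ 1 → P.natDegree ≤ n → Bdd P →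
  (∀ x ∈ Icc a b, |P.derivative.eval x| ≤ h * (n : ℝ) ^ 2 →
    c * (n : ℝ) ^ 4 ≤ |P.derivative.derivative.eval x|) →
  t ∈ Icc a b → P.derivative.eval t = 0 →
  ∃ (m : ℕ) (x : ℕ → ℝ), (∀ i ≤ m, x i ∈ Icc a b ∧ P.derivative.eval (x i) = 0) ∧
    (∀ i < m, δ ≤ (n : ℝ) ^ 2 * (x i - x (i + 1))) ∧ (∃ i ≤ m, x i = t) ∧
    Vp P a b = |P.eval b - P.eval (x 0)| +
      ∑ i ∈ Finset.range m, |P.eval (x (i + 1)) - P.eval (x i)| + |P.eval a - P.eval (x m)|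

/-! ### consequences for the members -/

/-- variation of the members -/
def Vh : Prop := ∀ (n : ℕ) (Th : ℝ → ℝ → ℝ) (Z : ℝ → ℝ[X]), Fam n Th Z → ∀ L τ τ' : ℝ, 0 ≤ τ →
  τ ≤ τ' → τ' ≤ π → Vp (Z L) (cos τ') (cos τ) = vv (Th L τ') - vv (Th L τ)

/-- second derivatives of the members at their nodes -/
def Z2 : Prop := ∀ K : ℝ, 0 < K → ∃ c : ℝ, 0 < c ∧ ∃ n0 : ℕ, ∀ n ≥ n0, ∀ (Th : ℝ → ℝ → ℝ)
  (Z : ℝ → ℝ[X]), Fam n Th Z → ∀ (L t : ℝ) (k : ℤ), 0 < t → n * t ≤ K → Th L t = k * π →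
  c * (n : ℝ) ^ 4 ≤ |(Z L).derivative.derivative.eval (cos t)|

/-- growth of the phases near a node -/
def Gr : Prop := ∀ K : ℝ, 0 < K → ∃ c : ℝ, 0 < c ∧ ∃ n0 : ℕ, ∀ n ≥ n0, ∀ (Th : ℝ → ℝ → ℝ)
  (Z : ℝ → ℝ[X]), Fam n Th Z → ∀ (L t s : ℝ) (k : ℤ), 0 < t → n * t ≤ K → Th L t = k * π →
  s ∈ Icc 0 π → c * min ((n : ℝ) ^ 2 * |cos s - cos t|) 1 ≤ |Th L s - k * π|

/-- the meeting point of two members is far from both nodes -/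
def Nu : Prop := ∀ K δ : ℝ, 0 < K → 0 < δ → ∃ c : ℝ, 0 < c ∧ ∃ n0 : ℕ, ∀ n ≥ n0,
  ∀ (Th : ℝ → ℝ → ℝ) (Z : ℝ → ℝ[X]), Fam n Th Z → ∀ (L L' t t' s : ℝ) (k : ℤ), 0 < t → t < t' →
  n * t' ≤ K → δ ≤ (n : ℝ) ^ 2 * (cos t - cos t') → Th L t = k * π → Th L' t' = (k + 1) * π →
  L < L' → s ∈ Icc t t' → Th L s + Th L' s = (2 * k + 1) * π →
  c ≤ (n : ℝ) ^ 2 * (cos t - cos s) ∧ c ≤ (n : ℝ) ^ 2 * (cos s - cos t') ∧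
    c ≤ nu K n s t ∧ c ≤ nu K n s t' ∧ Th L' s - Th L s ≤ π - c

/-- two critical points, up-jump of the label -/
def Pr : Prop := ∀ (n : ℕ) (Th : ℝ → ℝ → ℝ) (Z : ℝ → ℝ[X]), Fam n Th Z →
  ∀ (K L L' t t' : ℝ) (k : ℤ) (P : ℝ[X]), 0 ≤ K → K + 7 ≤ n → 0 < t → t < t' → n * t' ≤ K →
  Th L t = k * π → Th L' t' = (k + 1) * π → L < L' → P.natDegree ≤ n → Bdd P →
  P.derivative.eval (cos t) = 0 → P.derivative.eval (cos t') = 0 →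
  ∃ s ∈ Ioo t t', Th L s + Th L' s = (2 * k + 1) * π ∧ 0 < Th L' s - Th L s ∧
    Th L' s - Th L s < π ∧
    |P.eval (cos t') - P.eval (cos t)| + nu K n s t * (1 - |P.eval (cos t)|) +
      nu K n s t' * (1 - |P.eval (cos t')|) ≤ 2 - cW (Th L' s - Th L s)

/-- labels of a chain of critical points -/
def Cd : Prop := ∀ (n : ℕ) (Th : ℝ → ℝ → ℝ) (Z : ℝ → ℝ[X]), Fam n Th Z →
  ∀ (K τ τ' : ℝ) (P : ℝ[X]) (m : ℕ) (θ : ℕ → ℝ), 0 ≤ K → K + 7 ≤ n → 0 < τ → τ ≤ τ' →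
  n * τ' ≤ K → P.natDegree ≤ n → Bdd P → (∀ i ≤ m, θ i ∈ Icc τ τ') →
  (∀ i < m, θ i < θ (i + 1)) → (∀ i ≤ m, P.derivative.eval (cos (θ i)) = 0) →
  ∃ L s : ℕ → ℝ, (∀ i ≤ m, Th (L i) (θ i) = i * π) ∧
    (∀ i < m, s i ∈ Icc (θ i) (θ (i + 1))) ∧
    (∀ i < m, L i < L (i + 1) → Th (L i) (s i) + Th (L (i + 1)) (s i) = (2 * i + 1) * π) ∧
    (∀ i < m, L i < L (i + 1) → |P.eval (cos (θ (i + 1))) - P.eval (cos (θ i))| +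
      nu K n (s i) (θ i) * (1 - |P.eval (cos (θ i))|) +
      nu K n (s i) (θ (i + 1)) * (1 - |P.eval (cos (θ (i + 1)))|) ≤
      2 - cW (Th (L (i + 1)) (s i) - Th (L i) (s i))) ∧
    |P.eval (cos τ') - P.eval (cos (θ m))| + nu K n τ' (θ m) * (1 - |P.eval (cos (θ m))|) ≤
      vv (Th (L m) τ') - 2 * m ∧
    |P.eval (cos τ) - P.eval (cos (θ 0))| + nu K n τ (θ 0) * (1 - |P.eval (cos (θ 0))|) ≤
      -vv (Th (L 0) τ) ∧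
    ∃ L', pV Th τ τ' m L s ≤ vv (Th L' τ') - vv (Th L' τ)

/-- the length of a chain, with the loss at one of its points -/
def Su : Prop := ∀ K δ d : ℝ, 0 < K → 0 < δ → 0 < d → ∃ c : ℝ, 0 < c ∧ ∃ n0 : ℕ, ∀ n ≥ n0,
  ∀ (Th : ℝ → ℝ → ℝ) (Z : ℝ → ℝ[X]), Fam n Th Z →
  ∀ (τ τ' : ℝ) (P : ℝ[X]) (m : ℕ) (θ : ℕ → ℝ), 0 < τ → n * τ' ≤ K → d ≤ n * (τ' - τ) →
  P.natDegree ≤ n → Bdd P → (∀ i ≤ m, θ i ∈ Icc τ τ') →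
  (∀ i < m, δ ≤ (n : ℝ) ^ 2 * (cos (θ i) - cos (θ (i + 1)))) →
  (∀ i ≤ m, P.derivative.eval (cos (θ i)) = 0) →
  ∃ L, ∀ i ≤ m, |P.eval (cos τ) - P.eval (cos (θ 0))| +
    ∑ j ∈ Finset.range m, |P.eval (cos (θ (j + 1))) - P.eval (cos (θ j))| +
    |P.eval (cos τ') - P.eval (cos (θ m))| + c * (1 - |P.eval (cos (θ i))|) ≤
    vv (Th L τ') - vv (Th L τ)

/-! ### degenerate critical points -/

/-- loss between two critical points, one of them degenerate -/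
def G1 : Prop := ∀ K δ : ℝ, 0 < K → 0 < δ → ∃ ε c : ℝ, 0 < ε ∧ 0 < c ∧ ∃ n0 : ℕ, ∀ n ≥ n0,
  ∀ (Th : ℝ → ℝ → ℝ) (Z : ℝ → ℝ[X]), Fam n Th Z → ∀ (P : ℝ[X]) (t t' L : ℝ) (k : ℤ),
  P.natDegree ≤ n → Bdd P → 0 < t → t < t' → n * t' ≤ K → δ ≤ (n : ℝ) ^ 2 * (cos t - cos t') →
  P.derivative.eval (cos t) = 0 → P.derivative.eval (cos t') = 0 → Th L t = k * π →
  Th L t' ≤ (k + 1) * π + c →
  (|P.derivative.derivative.eval (cos t)| ≤ ε * (n : ℝ) ^ 4 ∨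
    |P.derivative.derivative.eval (cos t')| ≤ ε * (n : ℝ) ^ 4) →
  |P.eval (cos t') - P.eval (cos t)| ≤ 2 - c

/-- loss between a degenerate critical point and another point -/
def G2 : Prop := ∀ K δ : ℝ, 0 < K → 0 < δ → ∃ ε c : ℝ, 0 < ε ∧ 0 < c ∧ ∃ n0 : ℕ, ∀ n ≥ n0,
  ∀ (Th : ℝ → ℝ → ℝ) (Z : ℝ → ℝ[X]), Fam n Th Z → ∀ (P : ℝ[X]) (t s L : ℝ) (k : ℤ),
  P.natDegree ≤ n → Bdd P → 0 < t → n * t ≤ K → δ ≤ n * s → n * s ≤ K →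
  δ ≤ (n : ℝ) ^ 2 * |cos s - cos t| → P.derivative.eval (cos t) = 0 →
  |P.derivative.derivative.eval (cos t)| ≤ ε * (n : ℝ) ^ 4 → Th L t = k * π →
  |Th L s - k * π| ≤ π + c →
  |P.eval (cos s) - P.eval (cos t)| ≤ vv |Th L s - k * π| - c

/-- loss between a degenerate critical point and points close to `1` -/
def Ed : Prop := ∀ K d : ℝ, 0 < K → 0 < d → ∃ ε c e : ℝ, 0 < ε ∧ 0 < c ∧ 0 < e ∧ ∃ n0 : ℕ,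
  ∀ n ≥ n0, ∀ (P : ℝ[X]) (t s : ℝ), P.natDegree ≤ n → Bdd P → d ≤ n * t → n * t ≤ K →
  P.derivative.eval (cos t) = 0 → |P.derivative.derivative.eval (cos t)| ≤ ε * (n : ℝ) ^ 4 →
  0 ≤ s → n * s ≤ e → |P.eval (cos s) - P.eval (cos t)| ≤ vv (n * t) - c

/-- nearly maximal chains are non-degenerate -/
def Nf : Prop := ∀ K d δ : ℝ, 0 < K → 0 < d → 0 < δ → ∃ h c : ℝ, 0 < h ∧ 0 < c ∧ ∃ n0 : ℕ,
  ∀ n ≥ n0, ∀ (Th : ℝ → ℝ → ℝ) (Z : ℝ → ℝ[X]), Fam n Th Z →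
  ∀ (τ τ' : ℝ) (P : ℝ[X]) (m : ℕ) (θ : ℕ → ℝ), 0 < τ → n * τ' ≤ K → d ≤ n * (τ' - τ) →
  P.natDegree ≤ n → Bdd P → (∀ i ≤ m, θ i ∈ Icc τ τ') →
  (∀ i < m, δ ≤ (n : ℝ) ^ 2 * (cos (θ i) - cos (θ (i + 1)))) →
  (∀ i ≤ m, P.derivative.eval (cos (θ i)) = 0) →
  (∀ L, vv (Th L τ') - vv (Th L τ) ≤ |P.eval (cos τ) - P.eval (cos (θ 0))| +
    ∑ j ∈ Finset.range m, |P.eval (cos (θ (j + 1))) - P.eval (cos (θ j))| +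
    |P.eval (cos τ') - P.eval (cos (θ m))| + h) →
  ∀ i ≤ m, c * (n : ℝ) ^ 4 ≤ |P.derivative.derivative.eval (cos (θ i))|

/-! ### main results -/

/-- a critical point which is not a contact point costs variation -/
def TV1 : Prop := ∀ K d h c : ℝ, 0 < K → 0 < d → 0 < h → 0 < c → ∃ c' : ℝ, 0 < c' ∧ ∃ n0 : ℕ,
  ∀ n ≥ n0, ∀ (a b t : ℝ) (P : ℝ[X]), -1 ≤ a → a < b → b < 1 → n * arccos a ≤ K →
  d ≤ n * (arccos a - arccos b) → P.natDegree ≤ n → Bdd P →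
  (∀ x ∈ Icc a b, |P.derivative.eval x| ≤ h * (n : ℝ) ^ 2 →
    c * (n : ℝ) ^ 4 ≤ |P.derivative.derivative.eval x|) → t ∈ Icc a b →
  P.derivative.eval t = 0 →
  ∃ Q : ℝ[X], Q.natDegree ≤ n ∧ Bdd Q ∧ Vp P a b + c' * (1 - |P.eval t|) ≤ Vp Q a b

/-- nearly maximal polynomials are non-degenerate at their critical points -/
def TV0 : Prop := ∀ K d : ℝ, 0 < K → 0 < d → ∃ c h : ℝ, 0 < c ∧ 0 < h ∧ ∃ n0 : ℕ, ∀ n ≥ n0,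
  ∀ (a b t : ℝ) (P : ℝ[X]), -1 ≤ a → a < b → b < 1 → n * arccos a ≤ K →
  d ≤ n * (arccos a - arccos b) → P.natDegree ≤ n → Bdd P →
  (∀ Q : ℝ[X], Q.natDegree ≤ n → Bdd Q → Vp Q a b ≤ Vp P a b + h) → t ∈ Icc a b →
  P.derivative.eval t = 0 → c * (n : ℝ) ^ 4 ≤ |P.derivative.derivative.eval t|

/-- nearly maximal polynomials are non-degenerate -/
def TV2 : Prop := ∀ K d : ℝ, 0 < K → 0 < d → ∃ c h : ℝ, 0 < c ∧ 0 < h ∧ ∃ n0 : ℕ, ∀ n ≥ n0,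
  ∀ (a b t : ℝ) (P : ℝ[X]), -1 ≤ a → a < b → b < 1 → n * arccos a ≤ K →
  d ≤ n * (arccos a - arccos b) → P.natDegree ≤ n → Bdd P →
  (∀ Q : ℝ[X], Q.natDegree ≤ n → Bdd Q → Vp Q a b ≤ Vp P a b + h) → t ∈ Icc a b →
  |P.derivative.eval t| ≤ h * (n : ℝ) ^ 2 → c * (n : ℝ) ^ 4 ≤ |P.derivative.derivative.eval t|

end

end Pool.Agent.Helper40.TV
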