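import Pool.Agent.Helper40.TV.P.Rc
import Pool.Agent.Helper40.TV.P.Ct
import Pool.Agent.Helper40.TV.P.Sp
import Pool.Agent.Helper40.TV.P.Tb
import Pool.Agent.Helper40.TV.P.Ex1
import Pool.Agent.Helper40.TV.P.Ex2
import Pool.Agent.Helper40.TV.P.Cp
import Pool.Agent.Helper40.TV.P.Un
import Pool.Agent.Helper40.TV.P.Ar
import Pool.Agent.Helper40.TV.P.Ss
import Pool.Agent.Helper40.TV.P.Sy
import Pool.Agent.Helper40.TV.P.Sc
import Pool.Agent.Helper40.TV.P.Nl
import Pool.Agent.Helper40.TV.P.Nk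
import Pool.Agent.Helper40.TV.P.Dk
import Pool.Agent.Helper40.TV.P.Ax
import Pool.Agent.Helper40.TV.P.Am
import Pool.Agent.Helper40.TV.P.Mo
import Pool.Agent.Helper40.TV.P.Pt
import Pool.Agent.Helper40.TV.P.Pd
import Pool.Agent.Helper40.TV.P.Pl
import Pool.Agent.Helper40.TV.P.Pk
import Pool.Agent.Helper40.TV.P.Pq
import Pool.Agent.Helper40.TV.P.In
import Pool.Agent.Helper40.TV.P.Rh
import Pool.Agent.Helper40.TV.P.Rt
import Pool.Agent.Helper40.TV.P.Tp
import Pool.Agent.Helper40.TV.P.Cm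
import Pool.Agent.Helper40.TV.P.Ha
import Pool.Agent.Helper40.TV.P.Hb
import Pool.Agent.Helper40.TV.P.Hc
import Pool.Agent.Helper40.TV.P.Hs
import Pool.Agent.Helper40.TV.P.Hk
import Pool.Agent.Helper40.TV.P.Hi
import Pool.Agent.Helper40.TV.P.Lc
import Pool.Agent.Helper40.TV.P.La
import Pool.Agent.Helper40.TV.P.Lb
import Pool.Agent.Helper40.TV.P.Lt
import Pool.Agent.Helper40.TV.P.Lh
import Pool.Agent.Helper40.TV.P.Ll
import Pool.Agent.Helper40.TV.P.Lm
import Pool.Agent.Helper40.TV.P.V1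
import Pool.Agent.Helper40.TV.P.W1
import Pool.Agent.Helper40.TV.P.J1
import Pool.Agent.Helper40.TV.P.J2
import Pool.Agent.Helper40.TV.P.J3
import Pool.Agent.Helper40.TV.P.Pa1
import Pool.Agent.Helper40.TV.P.Pa
import Pool.Agent.Helper40.TV.P.Ty
import Pool.Agent.Helper40.TV.P.Nd
import Pool.Agent.Helper40.TV.P.Bp
import Pool.Agent.Helper40.TV.P.B2
import Pool.Agent.Helper40.TV.P.B1
import Pool.Agent.Helper40.TV.P.Ch
import Pool.Agent.Helper40.TV.P.Cn
import Pool.Agent.Helper40.TV.P.Vh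
import Pool.Agent.Helper40.TV.P.Z2
import Pool.Agent.Helper40.TV.P.Gr
import Pool.Agent.Helper40.TV.P.Nu
import Pool.Agent.Helper40.TV.P.Pr
import Pool.Agent.Helper40.TV.P.Cd
import Pool.Agent.Helper40.TV.P.Su
import Pool.Agent.Helper40.TV.P.G1
import Pool.Agent.Helper40.TV.P.G2
import Pool.Agent.Helper40.TV.P.Ed
import Pool.Agent.Helper40.TV.P.Nf
import Pool.Agent.Helper40.TV.P.TV1
import Pool.Agent.Helper40.TV.P.TV0
import Pool.Agent.Helper40.TV.P.TV2
import Pool.Agent.Helper40.TV.P.Ex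

/-!
The variation theorem near the end point: assembly.
-/

set_option autoImplicit false

namespace Pool.Agent.Helper40.TV

theorem main  : TV1 ∧ TV2 := by
  have hEx1 : Ex1 := ex1
  have hEx2 : Ex2 := ex2
  have hEx : Ex := ex hEx1 hEx2
  have hCt : Ct := ct
  have hAr : Ar := ar hCt
  have hPt : Pt := pt hCt hAr
  have hUn : Un := un
  have hRc : Rc := rc
  have hCp : Cp := cp hRc
  have hNk : Nk := nk hEx hUn hCp
  have hSp : Sp := sp
  have hNl : Nl := nl hEx hUn hCp hSp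
  have hPk : Pk := pk hEx hUn hCp hCt hNk hNl hPt hSp
  have hPd : Pd := pd hPt hAr hCt
  have hMo : Mo := mo
  have hPl : Pl := pl hPt hPd hMo
  have hLb : Lb := lb hEx hPt hPk hPl
  have hDk : Dk := dkk hEx hUn hCp hNk
  have hPq : Pq := pq hEx hUn hCp hCt hDk hPk hPt
  have hIn : In := inn hMo hPk hPq
  have hAx : Ax := ax hCt hAr
  have hAm : Am := am hCp
  have hSy : Sy := sy
  have hSc : Sc := sc hEx hUn hSy
  have hRh : Rh := rh hEx hAx hAm hSc
  have hTp : Tp := tp hIn hRh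
  have hLt : Lt := lt hTp hPk
  have hHa : Ha := ha
  have hHb : Hb := hb
  have hHc : Hc := hc
  have hHs : Hs := hs hEx hUn hSp hAx hAm hSc hHa hHb hHc
  have hHk : Hk := hk hMo hHs hPt hPd hEx hPk
  have hLh : Lh := lh hHk hPk
  have hRt : Rt := rt hEx hAx hSc
  have hCm : Cm := cm hIn hRt
  have hLl : Ll := ll hCm hPk
  have hHi : Hi := hi
  have hLc : Lc := lc
  have hLa : La := la hHi hLc
  have hLm : Lm := lm hEx hCt hLa hPt hNl hLb
  have hFamE : FamE := famE hLb hLt hLh hLl hLm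
  have hV1 : V1 := v1
  have hW1 : W1 := w1 hV1
  have hPr : Pr := pr hV1 hW1
  have hTb : Tb := tb hV1
  have hJ1 : J1 := j1 hV1 hW1 hTb
  have hJ2 : J2 := j2 hW1
  have hJ3 : J3 := j3 hW1
  have hPa1 : Pa1 := pa1 hV1 hW1 hJ1 hJ2 hJ3
  have hPa : Pa := pa hV1 hW1 hPa1
  have hCd : Cd := cd hV1 hW1 hPr hPa
  have hZ2 : Z2 := z2
  have hTy : Ty := ty
  have hGr : Gr := gr hZ2 hTy
  have hNu : Nu := nuu hGr
  have hSu : Su := su hV1 hW1 hCd hNu
  have hCn : Cn := cn hTy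
  have hVh : Vh := vh hV1
  have hTV1 : TV1 := tv1 hFamE hSu hCn hVh
  have hBp : Bp := bp
  have hB2 : B2 := b2 hBp hTy
  have hG1 : G1 := g1 hW1 hTy hB2 hGr hPr
  have hB1 : B1 := b1 hBp hTy
  have hNd : Nd := nd hTy
  have hG2 : G2 := g2 hV1 hTy hB1 hB2 hNd hGr hG1
  have hSs : Ss := ss
  have hEd : Ed := ed hV1 hTy hB1 hLa hSs
  have hNf : Nf := nf hV1 hW1 hTy hCd hNu hG1 hG2 hEd
  have hCh : Ch := ch hTy
  have hTV0 : TV0 := tv0 hFamE hV1 hNf hCh hVh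
  have hTV2 : TV2 := tv2 hTV0 hTy hB1
  exact ⟨hTV1, hTV2⟩

end Pool.Agent.Helper40.TV
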