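import Pool.Agent.Helper40.AS.Many

/-!
Variation of bounded polynomials over windows near `1`: definitions.

Notation: `x = cos θ`; `B_n` is the set of polynomials of degree at most `n` with `Bdd`.
-/

set_option autoImplicit false

namespace Pool.Agent.Helper40.TV

open Polynomial Set Real
open Pool.Agent.Helper40.AS (Bdd)

noncomputable section

/-- total variation of `P` over `[a, b]` -/
def Vp (P : ℝ[X]) (a b : ℝ) : ℝ := ∫ x in a..b, |P.derivative.eval x|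

/-! ### the family of polynomials with `n` alternation points -/

/-- `Z` has leading coefficient `κ * 2 ^ (n - 1)`, is bounded by `1` and takes the values
`1, -1` alternately at the `n` points `x 0 < ... < x (n - 1)`, the last value being `-1` -/
structure Mem (n : ℕ) (κ : ℝ) (Z : ℝ[X]) (x : ℕ → ℝ) : Prop where
  deg : Z.natDegree ≤ n
  bdd : Bdd Z
  lead : Z.coeff n = κ * 2 ^ (n - 1)
  lt : ∀ i, i + 1 < n → x i < x (i + 1)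
  mem : ∀ i < n, x i ∈ Icc (-1 : ℝ) 1
  val : ∀ i < n, Z.eval (x i) = (-1) ^ (n - i)

/-- the node polynomial -/
def om (n : ℕ) (x : ℕ → ℝ) : ℝ[X] := ∏ i ∈ Finset.range n, (X - C (x i))

/-- the member with parameter `κ` -/
def Zc (n : ℕ) (κ : ℝ) : ℝ[X] := by
  classical exact if h : ∃ Z x, Mem n κ Z x then h.choose else 0

/-- the nodes of the member with parameter `κ` -/
def xc (n : ℕ) (κ : ℝ) : ℕ → ℝ := by
  classical exact if h : ∃ Z x, Mem n κ Z x then h.choose_spec.choose else 0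

theorem mem_c {n : ℕ} {κ : ℝ} (h : ∃ Z x, Mem n κ Z x) : Mem n κ (Zc n κ) (xc n κ) := by
  unfold Zc xc
  rw [dif_pos h, dif_pos h]
  exact h.choose_spec.choose_spec

/-- number of nodes to the right of `y` -/
def cnt (n : ℕ) (x : ℕ → ℝ) (y : ℝ) : ℕ := by
  classical exact ((Finset.range n).filter fun i => y < x i).card

/-- the phase of `Z`: a continuous increasing function of `θ` with `Z (cos θ) = cos (ph θ)` -/
def ph (n : ℕ) (Z : ℝ[X]) (x : ℕ → ℝ) (θ : ℝ) : ℝ :=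
  π * cnt n x (cos θ) + arccos ((-1) ^ cnt n x (cos θ) * Z.eval (cos θ))

/-- the phase of the member with parameter `κ` -/
def Ph (n : ℕ) (κ θ : ℝ) : ℝ := ph n (Zc n κ) (xc n κ) θ

/-- the derivative of the phase in `-κ` -/
def wk (n : ℕ) (κ θ : ℝ) : ℝ :=
  2 ^ (n - 1) * |(om n (xc n κ)).eval (cos θ)| / √(1 - (Zc n κ).eval (cos θ) ^ 2)

/-- the derivative of the phase in `θ` -/
def dk (n : ℕ) (κ θ : ℝ) : ℝ :=
  |(Zc n κ).derivative.eval (cos θ)| * sin θ / √(1 - (Zc n κ).eval (cos θ) ^ 2)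

/-- phase with label `L`; labels are `m + (1 - κ) / 2` with `m` an integer -/
def Th (n : ℕ) (L θ : ℝ) : ℝ := π * ⌊L⌋ + Ph n (1 - 2 * Int.fract L) θ

/-- member with label `L` -/
def ZL (n : ℕ) (L : ℝ) : ℝ[X] := C (cos (π * ⌊L⌋)) * Zc n (1 - 2 * Int.fract L)

/-- the other roots of the identities for members with `0 < κ` -/
structure Aux (n : ℕ) (κ : ℝ) (Z : ℝ[X]) (x : ℕ → ℝ) (α β γ : ℝ) : Prop where
  g1 : 1 ≤ γ
  ga : γ ≤ α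
  ab : α ≤ β
  ne : α = 1 ∨ γ < α
  id1 : (1 - X ^ 2) * (1 - Z ^ 2) =
    C (4 ^ (n - 1) * κ ^ 2) * om n x ^ 2 * ((C α - X) * (C β - X))
  id2 : (1 - X ^ 2) * derivative Z = C (n * κ * 2 ^ (n - 1)) * om n x * (C γ - X)
  va : α = 1 ∨ Z.eval α = -1
  vb : Z.eval β = 1

/-! ### phases -/

/-- total variation of the cosine over `[0, y]` -/
def vv (y : ℝ) : ℝ := ∫ t in (0 : ℝ)..y, |sin t|

/-- largest variation of the cosine over intervals of length `d` -/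
def cW (d : ℝ) : ℝ := if d ≤ 0 then 0 else 2 * ⌊d / π⌋ + 2 * sin ((d - π * ⌊d / π⌋) / 2)

/-- abstract families of phases over a window `[a, b]` -/
structure PF (Th : ℝ → ℝ → ℝ) (a b : ℝ) : Prop where
  ab : a ≤ b
  unit : ∀ L, ∀ θ ∈ Icc a b, Th (L + 1) θ = Th L θ + π
  mono : ∀ θ ∈ Icc a b, StrictMono fun L => Th L θ
  cont : ∀ θ ∈ Icc a b, Continuous fun L => Th L θ
  tp : ∀ (m : ℤ) (A B C : ℝ), (m : ℝ) ≤ A → A ≤ B → B ≤ C → C ≤ m + 1 →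
    ∀ θ ∈ Icc a b, ∀ η ∈ Icc a b, θ ≤ η →
    (Th C θ - Th B θ) * (Th B η - Th A η) ≤ (Th C η - Th B η) * (Th B θ - Th A θ)
  hill : ∀ (m : ℤ) (A B : ℝ), (m : ℝ) ≤ A → A ≤ B → B ≤ m + 1 →
    ∀ θ ∈ Icc a b, ∀ η ∈ Icc a b, ∀ ζ ∈ Icc a b, θ ≤ η → η ≤ ζ →
    min (Th B θ - Th A θ) (Th B ζ - Th A ζ) ≤ Th B η - Th A η

/-- cost of a non-contact point in Lemma A -/
def nu (K : ℝ) (n : ℕ) (s t : ℝ) : ℝ :=
  1 - exp (-(2 * ((n : ℝ) ^ 2 * (cos s - cos t)) ^ 2 / (K + 7) ^ 4))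

/-- the family of members, with everything needed from it -/
structure Fam (n : ℕ) (Th : ℝ → ℝ → ℝ) (Z : ℝ → ℝ[X]) : Prop where
  n3 : 3 ≤ n
  deg : ∀ L, (Z L).natDegree ≤ n
  bdd : ∀ L, Bdd (Z L)
  ev : ∀ L, ∀ θ ∈ Icc 0 π, (Z L).eval (cos θ) = cos (Th L θ)
  unit : ∀ L θ, Th (L + 1) θ = Th L θ + π
  zero : ∀ θ ∈ Ioo 0 π, Th 0 θ = n * θ
  mono : ∀ θ ∈ Ioo 0 π, StrictMono fun L => Th L θ
  cont : ∀ θ ∈ Ioo 0 π, Continuous fun L => Th L θ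
  inc : ∀ L, StrictMonoOn (Th L) (Icc 0 π)
  cth : ∀ L, ContinuousOn (Th L) (Icc 0 π)
  lip : ∀ L, ∀ θ ∈ Icc 0 π, ∀ η ∈ Icc 0 π, θ ≤ η → Th L η - Th L θ ≤ n * (η - θ)
  tp : ∀ (m : ℤ) (A B C : ℝ), (m : ℝ) ≤ A → A ≤ B → B ≤ C → C ≤ m + 1 →
    ∀ θ ∈ Ioo 0 π, ∀ η ∈ Ioo 0 π, θ ≤ η →
    (Th C θ - Th B θ) * (Th B η - Th A η) ≤ (Th C η - Th B η) * (Th B θ - Th A θ)
  hill : ∀ (m : ℤ) (A B : ℝ), (m : ℝ) ≤ A → A ≤ B → B ≤ m + 1 →
    ∀ θ ∈ Ioo 0 π, ∀ η ∈ Ioo 0 π, ∀ ζ ∈ Ioo 0 π, θ ≤ η → η ≤ ζ →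
    min (Th B θ - Th A θ) (Th B ζ - Th A ζ) ≤ Th B η - Th A η
  cm1 : ∀ A B : ℝ, A ≤ B → ∀ θ ∈ Ioo 0 π, ∀ η ∈ Ioo 0 π, θ ≤ η →
    (Th B θ - Th A θ) * tan (θ / 2) ≤ (Th B η - Th A η) * tan (η / 2)
  cm2 : ∀ A B : ℝ, A ≤ B → ∀ θ ∈ Ioo 0 π, ∀ η ∈ Ioo 0 π, θ ≤ η →
    (Th B η - Th A η) * tan (θ / 2) ≤ (Th B θ - Th A θ) * tan (η / 2)
  lemA : ∀ (K L t s : ℝ) (k : ℤ) (P : ℝ[X]), 0 ≤ K → K + 7 ≤ n → t ∈ Ioo 0 π → n * t ≤ K →
    Th L t = k * π → s ∈ Icc 0 π → |Th L s - k * π| ≤ π → P.natDegree ≤ n → Bdd P →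
    P.derivative.eval (cos t) = 0 →
    |P.eval (cos s) - P.eval (cos t)| + nu K n s t * (1 - |P.eval (cos t)|) ≤
      1 - cos (Th L s - k * π)

end

end Pool.Agent.Helper40.TV
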