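import Pool.Agent.Helper40.TV.Defs

/-!
Statements of the pieces, part 1: the family of polynomials with `n` alternation points.
-/

set_option autoImplicit false

namespace Pool.Agent.Helper40.TV

open Polynomial Set Real
open Pool.Agent.Helper40.AS (Bdd)

noncomputable section

/-! ### existence and uniqueness -/

/-- a polynomial with smallest coefficient of `X ^ (n - 1)` exists -/
def Ex1 : Prop := ∀ (n : ℕ) (κ : ℝ), 3 ≤ n → κ ∈ Icc (-1 : ℝ) 1 → ∃ Z : ℝ[X],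
  Z.natDegree ≤ n ∧ Bdd Z ∧ Z.coeff n = κ * 2 ^ (n - 1) ∧ ∀ P : ℝ[X], P.natDegree ≤ n → Bdd P →
    P.coeff n = κ * 2 ^ (n - 1) → Z.coeff (n - 1) ≤ P.coeff (n - 1)

/-- it has `n` alternation points -/
def Ex2 : Prop := ∀ (n : ℕ) (κ : ℝ) (Z : ℝ[X]), 3 ≤ n → Z.natDegree ≤ n → Bdd Z →
  Z.coeff n = κ * 2 ^ (n - 1) → (∀ P : ℝ[X], P.natDegree ≤ n → Bdd P →
    P.coeff n = κ * 2 ^ (n - 1) → Z.coeff (n - 1) ≤ P.coeff (n - 1)) → ∃ x, Mem n κ Z x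

/-- existence of the members -/
def Ex : Prop := ∀ (n : ℕ) (κ : ℝ), 3 ≤ n → κ ∈ Icc (-1 : ℝ) 1 → ∃ Z x, Mem n κ Z x

/-- location of the roots from signs at `n` points -/
def Rc : Prop := ∀ (n : ℕ) (E : ℝ[X]) (c : ℝ) (y y' : ℕ → ℝ), E.natDegree ≤ n → E.coeff n = c →
  0 < c → (∀ i, i + 1 < n → y i < y (i + 1)) → (∀ i, i + 1 < n → y' i < y' (i + 1)) →
  (∀ i < n, 0 ≤ (-1) ^ (n - i) * E.eval (y i)) → (∀ i < n, (-1) ^ (n - i) * E.eval (y' i) ≤ 0) →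
  ∃ ζ : ℕ → ℝ, (∀ i < n, y i ≤ ζ i ∧ ζ i ≤ y' i) ∧ E = C c * om n ζ

/-- comparison of two members -/
def Cp : Prop := ∀ (n : ℕ) (κ κ' : ℝ) (Z Z' : ℝ[X]) (x x' : ℕ → ℝ), 3 ≤ n → κ' < κ →
  Mem n κ Z x → Mem n κ' Z' x' →
  (∃ ζ : ℕ → ℝ, (∀ i < n, x i ≤ ζ i ∧ ζ i ≤ x' i) ∧ Z - Z' = C ((κ - κ') * 2 ^ (n - 1)) * om n ζ) ∧
  ∀ i < n, x i ≤ x' i ∧ (x i ∈ Ioo (-1 : ℝ) 1 → x i < x' i)

/-- uniqueness -/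
def Un : Prop := ∀ (n : ℕ) (κ : ℝ) (Z Z' : ℝ[X]) (x x' : ℕ → ℝ), 3 ≤ n → Mem n κ Z x →
  Mem n κ Z' x' → Z = Z' ∧ ∀ i < n, x i = x' i

/-- contact points -/
def Ct : Prop := ∀ (n : ℕ) (κ : ℝ) (Z : ℝ[X]) (x : ℕ → ℝ) (y : ℝ), 3 ≤ n → Mem n κ Z x →
  y ∈ Icc (-1 : ℝ) 1 → |Z.eval y| = 1 →
  (∃ i < n, y = x i) ∨ (y = 1 ∧ Z.eval 1 = 1) ∨ (y = -1 ∧ Z.eval (-1) = (-1) ^ (n + 1))

/-- sign of the derivative between the nodes -/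
def Ar : Prop := ∀ (n : ℕ) (κ : ℝ) (Z : ℝ[X]) (x : ℕ → ℝ) (y : ℝ), 3 ≤ n → Mem n κ Z x →
  y ∈ Ioo (-1 : ℝ) 1 → (∀ i < n, y ≠ x i) →
  0 < (-1) ^ cnt n x y * Z.derivative.eval y ∧ |Z.eval y| < 1

/-! ### special members and reflection -/

/-- Chebyshev polynomials -/
def Sp : Prop := ∀ n : ℕ, 3 ≤ n →
  Mem n 1 (Polynomial.Chebyshev.T ℝ n) (fun i => cos ((n - i : ℝ) * π / n)) ∧
  Mem n (-1) (-Polynomial.Chebyshev.T ℝ n) (fun i => cos ((n - 1 - i : ℝ) * π / n)) ∧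
  Mem n 0 (-Polynomial.Chebyshev.T ℝ (n - 1 : ℕ))
    (fun i => cos ((n - 1 - i : ℝ) * π / (n - 1 : ℝ)))

/-- stretched Chebyshev polynomials -/
def Ss : Prop := ∀ (n : ℕ) (l : ℝ), 3 ≤ n → (1 + cos (π / n)) / 2 ≤ l → l ≤ 1 →
  Mem n (l ^ n) ((Polynomial.Chebyshev.T ℝ n).comp (C l * (X + 1) - 1))
    (fun i => (1 + cos ((n - i : ℝ) * π / n)) / l - 1)

/-- reflection -/
def Sy : Prop := ∀ (n : ℕ) (κ : ℝ) (Z : ℝ[X]) (x : ℕ → ℝ), 3 ≤ n → Mem n κ Z x →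
  Mem n (-κ) (C ((-1) ^ (n + 1)) * Z.comp (-X)) (fun i => -x (n - 1 - i))

/-- reflection of the chosen members and of the phases -/
def Sc : Prop := ∀ (n : ℕ) (κ : ℝ), 3 ≤ n → κ ∈ Icc (-1 : ℝ) 1 →
  Zc n (-κ) = C ((-1) ^ (n + 1)) * (Zc n κ).comp (-X) ∧
  (∀ i < n, xc n (-κ) i = -xc n κ (n - 1 - i)) ∧
  (∀ θ ∈ Icc 0 π, Ph n (-κ) θ = (n + 1) * π - Ph n κ (π - θ)) ∧
  (∀ θ, wk n (-κ) θ = wk n κ (π - θ)) ∧ ∀ θ, dk n (-κ) θ = dk n κ (π - θ)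

/-! ### dependence on the parameter -/

/-- continuity of the nodes -/
def Nk : Prop := ∀ n : ℕ, 3 ≤ n → ∀ i < n, ContinuousOn (fun κ => xc n κ i) (Icc (-1 : ℝ) 1)

/-- location of the nodes -/
def Nl : Prop := ∀ (n : ℕ) (κ : ℝ), 3 ≤ n → κ ∈ Icc (-1 : ℝ) 1 →
  (∀ i < n, cos ((n - i : ℝ) * π / n) ≤ xc n κ i ∧ xc n κ i ≤ cos ((n - 1 - i : ℝ) * π / n)) ∧
  (0 ≤ κ → xc n κ 0 = -1) ∧ (κ ≤ 0 → xc n κ (n - 1) = 1)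

/-- derivative of the members in the parameter -/
def Dk : Prop := ∀ (n : ℕ) (κ y : ℝ), 3 ≤ n → κ ∈ Ioo (-1 : ℝ) 1 →
  HasDerivAt (fun k => (Zc n k).eval y) (2 ^ (n - 1) * (om n (xc n κ)).eval y) κ

/-- the identities for `0 < κ` -/
def Ax : Prop := ∀ (n : ℕ) (κ : ℝ) (Z : ℝ[X]) (x : ℕ → ℝ), 3 ≤ n → 0 < κ → Mem n κ Z x →
  ∃ α β γ, Aux n κ Z x α β γ

/-- monotonicity of the outer roots -/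
def Am : Prop := ∀ (n : ℕ) (κ κ' α β γ α' β' γ' : ℝ) (Z Z' : ℝ[X]) (x x' : ℕ → ℝ), 3 ≤ n →
  0 < κ' → κ' < κ → Mem n κ Z x → Mem n κ' Z' x' → Aux n κ Z x α β γ →
  Aux n κ' Z' x' α' β' γ' → α ≤ α' ∧ β < β'

/-! ### phases -/

/-- the phase as a function of `θ` -/
def Pt : Prop := ∀ (n : ℕ) (κ : ℝ) (Z : ℝ[X]) (x : ℕ → ℝ), 3 ≤ n → Mem n κ Z x →
  ContinuousOn (ph n Z x) (Icc 0 π) ∧ StrictMonoOn (ph n Z x) (Icc 0 π) ∧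
  (∀ θ ∈ Icc 0 π, cos (ph n Z x θ) = Z.eval (cos θ)) ∧
  ∀ i < n, ph n Z x (arccos (x i)) = (n - i : ℝ) * π

/-- derivative of the phase in `θ` -/
def Pd : Prop := ∀ (n : ℕ) (κ : ℝ) (Z : ℝ[X]) (x : ℕ → ℝ) (θ : ℝ), 3 ≤ n → Mem n κ Z x →
  θ ∈ Ioo 0 π → Z.eval (cos θ) ^ 2 ≠ 1 →
  HasDerivAt (ph n Z x) (|Z.derivative.eval (cos θ)| * sin θ / √(1 - Z.eval (cos θ) ^ 2)) θ

/-- the phase is Lipschitz -/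
def Pl : Prop := ∀ (n : ℕ) (κ : ℝ) (Z : ℝ[X]) (x : ℕ → ℝ), 3 ≤ n → Mem n κ Z x →
  ∀ θ ∈ Icc 0 π, ∀ η ∈ Icc 0 π, θ ≤ η → ph n Z x η - ph n Z x θ ≤ n * (η - θ)

/-- the phase as a function of the parameter -/
def Pk : Prop := ∀ (n : ℕ) (θ : ℝ), 3 ≤ n → θ ∈ Ioo 0 π →
  StrictAntiOn (fun κ => Ph n κ θ) (Icc (-1 : ℝ) 1) ∧
  ContinuousOn (fun κ => Ph n κ θ) (Icc (-1 : ℝ) 1) ∧
  Ph n 1 θ = n * θ ∧ Ph n (-1) θ = n * θ + π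

/-- derivative of the phase in the parameter -/
def Pq : Prop := ∀ (n : ℕ) (θ : ℝ), 3 ≤ n → θ ∈ Ioo 0 π →
  (∀ κ ∈ Ioo (-1 : ℝ) 1, (Zc n κ).eval (cos θ) ^ 2 ≠ 1 →
    HasDerivAt (fun k => Ph n k θ) (-wk n κ θ) κ) ∧
  {κ : ℝ | κ ∈ Icc (-1 : ℝ) 1 ∧ (Zc n κ).eval (cos θ) ^ 2 = 1}.Finite

/-- monotone functions off a finite set -/
def Mo : Prop := ∀ (f f' : ℝ → ℝ) (S : Set ℝ) (a b : ℝ), a ≤ b → S.Finite →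
  ContinuousOn f (Icc a b) → (∀ x ∈ Ioo a b, x ∉ S → HasDerivAt f (f' x) x ∧ 0 ≤ f' x) →
  f a ≤ f b

/-- integration in the parameter -/
def In : Prop := ∀ (n : ℕ) (θ η κ κ' p q : ℝ), 3 ≤ n → θ ∈ Ioo 0 π → η ∈ Ioo 0 π → -1 ≤ κ' →
  κ' ≤ κ → κ ≤ 1 → (∀ k ∈ Ioo κ' κ, k ≠ 0 → (Zc n k).eval (cos θ) ^ 2 ≠ 1 →
    (Zc n k).eval (cos η) ^ 2 ≠ 1 → p * wk n k θ ≤ q * wk n k η) →
  p * (Ph n κ' θ - Ph n κ θ) ≤ q * (Ph n κ' η - Ph n κ η)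

/-- comparison of the densities for different parameters -/
def Rh : Prop := ∀ (n : ℕ) (θ η κ₀ : ℝ), 3 ≤ n → θ ∈ Ioo 0 π → η ∈ Ioo 0 π → θ ≤ η →
  κ₀ ∈ Icc (-1 : ℝ) 1 → ∃ ρ : ℝ, 0 ≤ ρ ∧
  (∀ k ∈ Ioo κ₀ 1, k ≠ 0 → (Zc n k).eval (cos θ) ^ 2 ≠ 1 → (Zc n k).eval (cos η) ^ 2 ≠ 1 →
    wk n k η ≤ ρ * wk n k θ) ∧
  ∀ k ∈ Ioo (-1) κ₀, k ≠ 0 → (Zc n k).eval (cos θ) ^ 2 ≠ 1 → (Zc n k).eval (cos η) ^ 2 ≠ 1 →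
    ρ * wk n k θ ≤ wk n k η

/-- comparison of the densities at different points -/
def Rt : Prop := ∀ (n : ℕ) (θ η k : ℝ), 3 ≤ n → θ ∈ Ioo 0 π → η ∈ Ioo 0 π → θ ≤ η →
  k ∈ Ioo (-1 : ℝ) 1 → k ≠ 0 → (Zc n k).eval (cos θ) ^ 2 ≠ 1 →
  (Zc n k).eval (cos η) ^ 2 ≠ 1 → wk n k θ * tan (θ / 2) ≤ wk n k η * tan (η / 2) ∧
    wk n k η * tan (θ / 2) ≤ wk n k θ * tan (η / 2)

/-- total positivity -/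
def Tp : Prop := ∀ (n : ℕ) (θ η κ κ' κ'' : ℝ), 3 ≤ n → θ ∈ Ioo 0 π → η ∈ Ioo 0 π → θ ≤ η →
  -1 ≤ κ'' → κ'' ≤ κ' → κ' ≤ κ → κ ≤ 1 →
  (Ph n κ'' θ - Ph n κ' θ) * (Ph n κ' η - Ph n κ η) ≤
    (Ph n κ'' η - Ph n κ' η) * (Ph n κ' θ - Ph n κ θ)

/-- comparison of the differences of phases at different points -/
def Cm : Prop := ∀ (n : ℕ) (θ η κ κ' : ℝ), 3 ≤ n → θ ∈ Ioo 0 π → η ∈ Ioo 0 π → θ ≤ η →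
  -1 ≤ κ' → κ' ≤ κ → κ ≤ 1 →
  (Ph n κ' θ - Ph n κ θ) * tan (θ / 2) ≤ (Ph n κ' η - Ph n κ η) * tan (η / 2) ∧
    (Ph n κ' η - Ph n κ η) * tan (θ / 2) ≤ (Ph n κ' θ - Ph n κ θ) * tan (η / 2)

/-! ### differences of phases have one hill -/

/-- algebraic form, both parameters positive -/
def Ha : Prop := ∀ α β γ α' β' γ' x y : ℝ, 1 ≤ γ → γ ≤ α → α ≤ β → (α = 1 ∨ γ < α) → 1 ≤ γ' →
  γ' ≤ α' → α' ≤ β' → α ≤ α' → β < β' → y < x → x < 1 →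
  (γ' - x) ^ 2 * ((α - x) * (β - x)) < (γ - x) ^ 2 * ((α' - x) * (β' - x)) →
  (γ - y) ^ 2 * ((α' - y) * (β' - y)) < (γ' - y) ^ 2 * ((α - y) * (β - y)) → False

/-- algebraic form, parameters of different signs -/
def Hb : Prop := ∀ α β γ α' β' γ' x y : ℝ, 1 ≤ γ → γ ≤ α → α ≤ β → 1 ≤ γ' →
  γ' ≤ α' → α' ≤ β' → (α' = 1 ∨ γ' < α') → -1 < y → y < x → x < 1 →
  (γ' + x) ^ 2 * ((α - x) * (β - x)) < (γ - x) ^ 2 * ((α' + x) * (β' + x)) →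
  (γ - y) ^ 2 * ((α' + y) * (β' + y)) < (γ' + y) ^ 2 * ((α - y) * (β - y)) → False

/-- algebraic form, one parameter is `0` -/
def Hc : Prop := ∀ (N α β γ x y : ℝ), 1 ≤ N → 1 ≤ γ → γ ≤ α → α ≤ β → y < x → x < 1 →
  (N - 1) ^ 2 * ((α - x) * (β - x)) < N ^ 2 * (γ - x) ^ 2 →
  N ^ 2 * (γ - y) ^ 2 < (N - 1) ^ 2 * ((α - y) * (β - y)) → False

/-- the derivatives of two phases cross at most once -/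
def Hs : Prop := ∀ (n : ℕ) (θ η κ κ' : ℝ), 3 ≤ n → θ ∈ Ioo 0 π → η ∈ Ioo 0 π → θ < η →
  -1 ≤ κ' → κ' < κ → κ ≤ 1 → (Zc n κ).eval (cos θ) ^ 2 ≠ 1 → (Zc n κ).eval (cos η) ^ 2 ≠ 1 →
  (Zc n κ').eval (cos θ) ^ 2 ≠ 1 → (Zc n κ').eval (cos η) ^ 2 ≠ 1 →
  dk n κ' θ < dk n κ θ → dk n κ η < dk n κ' η → False

/-- one hill -/
def Hk : Prop := ∀ (n : ℕ) (θ η ζ κ κ' : ℝ), 3 ≤ n → θ ∈ Ioo 0 π → η ∈ Ioo 0 π → ζ ∈ Ioo 0 π →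
  θ ≤ η → η ≤ ζ → -1 ≤ κ' → κ' ≤ κ → κ ≤ 1 →
  min (Ph n κ' θ - Ph n κ θ) (Ph n κ' ζ - Ph n κ ζ) ≤ Ph n κ' η - Ph n κ η

/-! ### Lemma A -/

/-- interpolation at the nodes, one of them double -/
def Hi : Prop := ∀ (n i : ℕ) (x : ℕ → ℝ) (P : ℝ[X]) (s : ℝ), i < n →
  (∀ j, j + 1 < n → x j < x (j + 1)) → P.natDegree ≤ n → P.derivative.eval (x i) = 0 →
  P.eval s = ∑ j ∈ (Finset.range n).erase i, P.eval (x j) *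
      ((s - x i) ^ 2 * (∏ k ∈ ((Finset.range n).erase i).erase j, (s - x k) / (x j - x k)) /
        (x j - x i) ^ 2) +
    P.eval (x i) * ((∏ k ∈ (Finset.range n).erase i, (s - x k) / (x i - x k)) *
      (1 - (s - x i) * ∑ k ∈ (Finset.range n).erase i, 1 / (x i - x k)))

/-- the coefficient of the double node -/
def Lc : Prop := ∀ (n i : ℕ) (x : ℕ → ℝ) (s ρ : ℝ), 1 ≤ i → i < n →
  (∀ j, j + 1 < n → x j < x (j + 1)) → x (i - 1) ≤ s → (i + 1 < n → s ≤ x (i + 1)) → 0 < ρ →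
  x i - x (i - 1) ≤ ρ → s - x (i - 1) ≤ ρ →
  (∏ k ∈ (Finset.range n).erase i, (s - x k) / (x i - x k)) *
      (1 - (s - x i) * ∑ k ∈ (Finset.range n).erase i, 1 / (x i - x k)) ≤
    exp (-((s - x i) ^ 2 / (2 * ρ ^ 2)))

/-- Lemma A -/
def La : Prop := ∀ (n i : ℕ) (κ s ρ : ℝ) (Z P : ℝ[X]) (x : ℕ → ℝ), 3 ≤ n → Mem n κ Z x →
  1 ≤ i → i < n → x i ∈ Ioo (-1 : ℝ) 1 → P.natDegree ≤ n → Bdd P →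
  P.derivative.eval (x i) = 0 → x (i - 1) ≤ s → (i + 1 < n → s ≤ x (i + 1)) → s ≤ 1 → 0 < ρ →
  x i - x (i - 1) ≤ ρ → s - x (i - 1) ≤ ρ →
  |P.eval s - P.eval (x i)| + (1 - exp (-((s - x i) ^ 2 / (2 * ρ ^ 2)))) *
    (1 - |P.eval (x i)|) ≤ |Z.eval s - Z.eval (x i)|

/-! ### labels -/

/-- basic properties of the family in terms of labels -/
def Lb : Prop := ∀ n : ℕ, 3 ≤ n →
  (∀ L, (ZL n L).natDegree ≤ n) ∧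
  (∀ L, Bdd (ZL n L)) ∧
  (∀ L, ∀ θ ∈ Icc 0 π, (ZL n L).eval (cos θ) = cos (Th n L θ)) ∧
  (∀ L θ, Th n (L + 1) θ = Th n L θ + π) ∧
  (∀ θ ∈ Ioo 0 π, Th n 0 θ = n * θ) ∧
  (∀ θ ∈ Ioo 0 π, StrictMono fun L => Th n L θ) ∧
  (∀ θ ∈ Ioo 0 π, Continuous fun L => Th n L θ) ∧
  (∀ L, StrictMonoOn (Th n L) (Icc 0 π)) ∧
  (∀ L, ContinuousOn (Th n L) (Icc 0 π)) ∧
  ∀ L, ∀ θ ∈ Icc 0 π, ∀ η ∈ Icc 0 π, θ ≤ η → Th n L η - Th n L θ ≤ n * (η - θ)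

/-- total positivity in terms of labels -/
def Lt : Prop := ∀ n : ℕ, 3 ≤ n → ∀ (m : ℤ) (A B C : ℝ), (m : ℝ) ≤ A → A ≤ B → B ≤ C → C ≤ m + 1 →
  ∀ θ ∈ Ioo 0 π, ∀ η ∈ Ioo 0 π, θ ≤ η →
  (Th n C θ - Th n B θ) * (Th n B η - Th n A η) ≤ (Th n C η - Th n B η) * (Th n B θ - Th n A θ)

/-- one hill, in terms of labels -/
def Lh : Prop := ∀ n : ℕ, 3 ≤ n → ∀ (m : ℤ) (A B : ℝ), (m : ℝ) ≤ A → A ≤ B → B ≤ m + 1 →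
  ∀ θ ∈ Ioo 0 π, ∀ η ∈ Ioo 0 π, ∀ ζ ∈ Ioo 0 π, θ ≤ η → η ≤ ζ →
  min (Th n B θ - Th n A θ) (Th n B ζ - Th n A ζ) ≤ Th n B η - Th n A η

/-- comparison at different points, in terms of labels -/
def Ll : Prop := ∀ n : ℕ, 3 ≤ n → ∀ A B : ℝ, A ≤ B → ∀ θ ∈ Ioo 0 π, ∀ η ∈ Ioo 0 π, θ ≤ η →
  (Th n B θ - Th n A θ) * tan (θ / 2) ≤ (Th n B η - Th n A η) * tan (η / 2) ∧
  (Th n B η - Th n A η) * tan (θ / 2) ≤ (Th n B θ - Th n A θ) * tan (η / 2)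

/-- Lemma A in terms of labels -/
def Lm : Prop := ∀ n : ℕ, 3 ≤ n → ∀ (K L t s : ℝ) (k : ℤ) (P : ℝ[X]), 0 ≤ K → K + 7 ≤ n →
  t ∈ Ioo 0 π → n * t ≤ K → Th n L t = k * π → s ∈ Icc 0 π → |Th n L s - k * π| ≤ π →
  P.natDegree ≤ n → Bdd P → P.derivative.eval (cos t) = 0 →
  |P.eval (cos s) - P.eval (cos t)| + nu K n s t * (1 - |P.eval (cos t)|) ≤
    1 - cos (Th n L s - k * π)

/-- the family exists -/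
def FamE : Prop := ∀ n : ℕ, 3 ≤ n → Fam n (Th n) (ZL n)

end

end Pool.Agent.Helper40.TV
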