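import Pool.Agent.Helper40.TV.Defs

/-!
Statements of the pieces, part 2: paths of labels (no polynomials here).
-/

set_option autoImplicit false

namespace Pool.Agent.Helper40.TV

open Set Real

noncomputable section

/-- facts on `vv` -/
def V1 : Prop := Continuous vv ∧ StrictMono vv ∧ vv 0 = 0 ∧ (∀ y, vv (y + π) = vv y + 2) ∧
  (∀ (k : ℤ) (y : ℝ), k * π ≤ y → y ≤ (k + 1) * π → vv y = 2 * k + 1 - cos (y - k * π)) ∧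
  (∀ y, vv (-y) = -vv y) ∧
  (∀ x y, x ≤ y → vv y - vv x ≤ y - x) ∧
  (∀ x y, x ≤ y → y ≤ x + π → vv y - vv x ≤ 2 * sin ((y - x) / 2)) ∧
  ∀ x y, x ≤ y → y ≤ x + π → 2 * (1 - cos ((y - x) / 2)) ≤ vv y - vv x

/-- facts on `cW` -/
def W1 : Prop := Monotone cW ∧ (∀ d, 0 ≤ cW d) ∧ (∀ d ≤ 0, cW d = 0) ∧
  (∀ d, 0 ≤ d → d ≤ π → cW d = 2 * sin (d / 2)) ∧
  (∀ d, 0 ≤ d → cW (d + π) = cW d + 2) ∧
  (∀ d e, 0 ≤ d → 0 ≤ e → cW (d + e) ≤ cW d + cW e) ∧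
  ∀ x y, x ≤ y → vv y - vv x ≤ cW (y - x)

/-- the basic inequality -/
def Tb : Prop := ∀ r q t u : ℝ, 0 < r → 0 < q → 2 * r + q ≤ π → 0 ≤ t → t ≤ 1 →
  -(2 * sin (r / 2) * sin (q / 2) / cos ((r + q) / 2)) ≤
    (1 - sin r / sin (r + q)) * (vv (u + t * r) - vv u) -
      sin r / sin (r + q) * (vv u - vv (u - t * q))

/-- one jump, across an integer -/
def J1 : Prop := ∀ (Th : ℝ → ℝ → ℝ) (a b : ℝ), PF Th a b → ∀ (m : ℤ) (X Y c : ℝ), X < m → m < Y →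
  Y < X + 1 → c ∈ Icc a b →
  ∃ L, vv (Th Y b) - vv (Th X a) - cW (Th Y c - Th X c) ≤ vv (Th L b) - vv (Th L a)

/-- a jump inside a unit can be moved to one of the neighbouring points -/
def J2 : Prop := ∀ (Th : ℝ → ℝ → ℝ) (a b : ℝ), PF Th a b → ∀ (X Y c c' c'' : ℝ), X ≤ Y →
  Y ≤ ⌊X⌋ + 1 → c' ∈ Icc a b → c ∈ Icc a b → c'' ∈ Icc a b → c' ≤ c → c ≤ c'' →
  cW (Th Y c' - Th X c') ≤ cW (Th Y c - Th X c) ∨ cW (Th Y c'' - Th X c'') ≤ cW (Th Y c - Th X c)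

/-- two jumps across integers can be merged -/
def J3 : Prop := ∀ (Th : ℝ → ℝ → ℝ) (a b : ℝ), PF Th a b → ∀ (m : ℤ) (X Y W c c' : ℝ), X < m →
  m < Y → Y < X + 1 → Y < m + 1 → m + 1 < W → W < Y + 1 → c ∈ Icc a b → c' ∈ Icc a b → c ≤ c' →
  cW (Th W c - Th X c) ≤ cW (Th Y c - Th X c) + cW (Th W c' - Th Y c') ∨
  cW (Th W c' - Th X c') ≤ cW (Th Y c - Th X c) + cW (Th W c' - Th Y c')

/-- value of a path: labels `X 0, ..., X r`, the jump from `X j` to `X (j + 1)` being at `c j` -/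
def pV (Th : ℝ → ℝ → ℝ) (a b : ℝ) (r : ℕ) (X c : ℕ → ℝ) : ℝ :=
  vv (Th (X r) b) - vv (Th (X 0) a) -
    ∑ j ∈ Finset.range r, cW (Th (X (j + 1)) (c j) - Th (X j) (c j))

/-- increasing paths -/
def Pa1 : Prop := ∀ (Th : ℝ → ℝ → ℝ) (a b : ℝ), PF Th a b → ∀ (r : ℕ) (X c : ℕ → ℝ),
  (∀ j < r, X j ≤ X (j + 1)) → (∀ j < r, c j ∈ Icc a b) → (∀ j, j + 1 < r → c j ≤ c (j + 1)) →
  ∃ L, pV Th a b r X c ≤ vv (Th L b) - vv (Th L a)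

/-- all paths -/
def Pa : Prop := ∀ (Th : ℝ → ℝ → ℝ) (a b : ℝ), PF Th a b → ∀ (r : ℕ) (X c : ℕ → ℝ),
  (∀ j < r, c j ∈ Icc a b) → (∀ j, j + 1 < r → c j ≤ c (j + 1)) →
  ∃ L, pV Th a b r X c ≤ vv (Th L b) - vv (Th L a)

end

end Pool.Agent.Helper40.TV
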